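import Pool.Agent.W250.RS.Stm

/-!
RS-EL: Elekes' argument along dense hypergraphs.
-/

set_option autoImplicit false

namespace Pool.Agent.W52.RS

open Finset
open Pool.Agent.W250.RS

lemma tup_card {α : Type} (X : Finset α) (k : ℕ) : (tup X k).card = X.card ^ k := by
  unfold tup
  rw [Fintype.card_piFinset, prod_const, card_univ, Fintype.card_fin]

lemma mem_tup {α : Type} {X : Finset α} {k : ℕ} {x : Fin k → α} : x ∈ tup X k ↔ ∀ i, x i ∈ X := by
  unfold tup
  rw [Fintype.mem_piFinset]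

/-- Fibres over the first entry are small. -/
lemma fib_le {α : Type} [DecidableEq α] (X : Finset α) (m : ℕ) (B : Finset (Fin (m + 1) → α))
    (hB : B ⊆ tup X (m + 1)) (a : α) : (B.filter (fun x => x 0 = a)).card ≤ X.card ^ m := by
  rw [← tup_card X m]
  apply card_le_card_of_injOn (fun x => fun i => x (Fin.succ i))
  · intro x hx
    have hx' := mem_filter.1 (mem_coe.1 hx)
    have h1 := mem_tup.1 (hB hx'.1)
    exact mem_coe.2 (mem_tup.2 fun i => h1 _)
  · intro x hx y hy h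
    have hx' := (mem_filter.1 (mem_coe.1 hx)).2
    have hy' := (mem_filter.1 (mem_coe.1 hy)).2
    funext i
    refine Fin.cases ?_ (fun i => ?_) i
    · rw [hx', hy']
    · exact congrFun h i

/-- The image of a set of tuples all of whose values have more than `K` representations. -/
lemma rich {α β : Type} [DecidableEq β] (T B : Finset α) (g : α → β) (K : ℕ)
    (hB : ∀ x ∈ B, x ∈ T ∧ K < (T.filter (fun y => g y = g x)).card) :
    (B.image g).card * K ≤ T.card := by
  classical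
  have h1 : K * (B.image g).card ≤ (T.filter (fun y => g y ∈ B.image g)).card := by
    apply mul_card_image_le_card_of_maps_to (f := g)
    · intro y hy
      exact (mem_filter.1 hy).2
    · intro b hb
      obtain ⟨x, hx, rfl⟩ := mem_image.1 hb
      refine (hB x hx).2.le.trans (card_le_card ?_)
      intro y hy
      rw [mem_filter] at hy
      rw [mem_filter, mem_filter]
      exact ⟨⟨hy.1, by rw [hy.2]; exact hb⟩, hy.2⟩
  have h2 : (T.filter (fun y => g y ∈ B.image g)).card ≤ T.card := card_le_card (filter_subset _ _)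
  calc (B.image g).card * K = K * (B.image g).card := mul_comm _ _
    _ ≤ _ := h1.trans h2

theorem t_EL (h : S_E1) : S_EL := by
  classical
  intro R _ _ φ hφ X k K hk h4k h8 hK
  by_contra hcon
  push Not at hcon
  obtain ⟨hS, hP⟩ := hcon
  obtain ⟨j, rfl⟩ : ∃ j, k = j + 2 := ⟨k - 2, by omega⟩
  set n := X.card with hn
  set X' := X.erase 0 with hX'
  set BS := (tup X (j + 2)) \ poorS X (j + 2) K with hBS
  set BP := (tup X' (j + 2)) \ poorP X' (j + 2) K with hBP
  have hX'X : X' ⊆ X := erase_subset _ _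
  have htup : tup X' (j + 2) ⊆ tup X (j + 2) := by
    intro x hx
    rw [mem_tup] at hx ⊢
    exact fun i => hX'X (hx i)
  have hBSt : BS ⊆ tup X (j + 2) := sdiff_subset
  have hBPt : BP ⊆ tup X (j + 2) := sdiff_subset.trans htup
  have hnR : (8 : ℝ) ≤ n := by exact_mod_cast h8
  have hn0 : (0 : ℝ) < n := by linarith
  -- sizes
  have c1 : (7 : ℝ) * (n : ℝ) ^ (j + 2) < 8 * (BS.card : ℝ) := by
    have h1 : BS.card = (tup X (j + 2)).card - (poorS X (j + 2) K).card :=
      card_sdiff_of_subset (filter_subset _ _)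
    have h2 : (poorS X (j + 2) K).card ≤ (tup X (j + 2)).card := card_le_card (filter_subset _ _)
    rw [tup_card] at h1 h2
    have h3 : 7 * n ^ (j + 2) < 8 * BS.card := by
      rw [← hn] at h1 h2
      omega
    exact_mod_cast h3
  have c2 : (5 : ℝ) * (n : ℝ) ^ (j + 2) < 8 * (BP.card : ℝ) := by
    have h1 : BP.card = (tup X' (j + 2)).card - (poorP X' (j + 2) K).card :=
      card_sdiff_of_subset (filter_subset _ _)
    have h2 : (poorP X' (j + 2) K).card ≤ (tup X' (j + 2)).card :=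
      card_le_card (filter_subset _ _)
    rw [tup_card] at h1 h2
    have h3 : (3 : ℝ) / 4 * (n : ℝ) ^ (j + 2) ≤ (X'.card : ℝ) ^ (j + 2) := by
      have h4 : (n : ℝ) - 1 ≤ X'.card := by
        have := pred_card_le_card_erase (s := X) (a := (0 : R))
        have h5 : n ≤ X'.card + 1 := by
          rw [hX', hn]; omega
        have h6 : (n : ℝ) ≤ (X'.card : ℝ) + 1 := by exact_mod_cast h5
        linarith
      have h5 : ((n : ℝ) - 1) ^ (j + 2) ≤ (X'.card : ℝ) ^ (j + 2) :=
        pow_le_pow_left₀ (by linarith) h4 _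
      have h6 : 1 + ((j + 2 : ℕ) : ℝ) * (-(1 / (n : ℝ))) ≤ (1 + (-(1 / (n : ℝ)))) ^ (j + 2) := by
        apply one_add_mul_le_pow
        have : 1 / (n : ℝ) ≤ 1 := by
          rw [div_le_one hn0]; linarith
        linarith
      have h7 : ((j + 2 : ℕ) : ℝ) * (1 / (n : ℝ)) ≤ 1 / 4 := by
        rw [mul_one_div, div_le_iff₀ hn0]
        have : ((4 * (j + 2) : ℕ) : ℝ) ≤ n := by exact_mod_cast h4k
        push_cast at this ⊢
        linarith
      have h8' : (3 : ℝ) / 4 ≤ (1 + (-(1 / (n : ℝ)))) ^ (j + 2) := by linarith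
      have h9 : ((n : ℝ) - 1) ^ (j + 2) = (n : ℝ) ^ (j + 2) * (1 + (-(1 / (n : ℝ)))) ^ (j + 2) := by
        rw [← mul_pow]
        congr 1
        field_simp
        ring
      rw [h9] at h5
      have h10 : (n : ℝ) ^ (j + 2) * (3 / 4) ≤
          (n : ℝ) ^ (j + 2) * (1 + (-(1 / (n : ℝ)))) ^ (j + 2) :=
        mul_le_mul_of_nonneg_left h8' (by positivity)
      linarith
    have h4 : ((8 * (poorP X' (j + 2) K).card : ℕ) : ℝ) < ((n ^ (j + 2) : ℕ) : ℝ) := by
      exact_mod_cast hP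
    push_cast at h4
    have h5 : (BP.card : ℝ) = (X'.card : ℝ) ^ (j + 2) - ((poorP X' (j + 2) K).card : ℝ) := by
      rw [h1, Nat.cast_sub h2]
      push_cast
      ring
    linarith
  -- the sets of values
  have d1 : (BS.image (fun x => ∑ i, x i)).card * K ≤ n ^ (j + 2) := by
    rw [hn, ← tup_card]
    apply rich
    intro x hx
    rw [hBS, mem_sdiff] at hx
    refine ⟨hx.1, ?_⟩
    by_contra hcc
    exact hx.2 (by unfold poorS; rw [mem_filter]; exact ⟨hx.1, not_lt.1 hcc⟩)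
  have d2 : (BP.image (fun x => ∏ i, x i)).card * K ≤ n ^ (j + 2) := by
    rw [hn, ← tup_card]
    refine le_trans ?_ (card_le_card htup)
    apply rich
    intro x hx
    rw [hBP, mem_sdiff] at hx
    refine ⟨hx.1, ?_⟩
    by_contra hcc
    exact hx.2 (by unfold poorP; rw [mem_filter]; exact ⟨hx.1, not_lt.1 hcc⟩)
  -- pairs with the same first entry
  set S := (BS ×ˢ BP).filter (fun p => p.1 0 = p.2 0) with hSdef
  have hScard : (S.card : ℝ) = ∑ a ∈ X, ((BS.filter (fun x => x 0 = a)).card : ℝ) *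
      ((BP.filter (fun x => x 0 = a)).card : ℝ) := by
    have h1 : S.card = ∑ a ∈ X, (S.filter (fun p => p.1 0 = a)).card := by
      apply card_eq_sum_card_fiberwise
      intro p hp
      have hp' := mem_filter.1 (mem_coe.1 hp)
      have := mem_product.1 hp'.1
      exact mem_coe.2 (mem_tup.1 (hBSt this.1) 0)
    rw [h1]
    push_cast
    apply sum_congr rfl
    intro a _
    rw [← Nat.cast_mul, ← card_product]
    congr 2
    ext p
    rw [mem_filter, hSdef, mem_filter, mem_product, mem_product, mem_filter, mem_filter]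
    constructor
    · rintro ⟨⟨⟨h2, h3⟩, h4⟩, h5⟩
      exact ⟨⟨h2, h5⟩, h3, by rw [← h4, h5]⟩
    · rintro ⟨⟨h2, h3⟩, h4, h5⟩
      exact ⟨⟨⟨h2, h4⟩, by rw [h3, h5]⟩, h3⟩
  have hsumS : ∑ a ∈ X, ((BS.filter (fun x => x 0 = a)).card : ℝ) = (BS.card : ℝ) := by
    have h1 : BS.card = ∑ a ∈ X, (BS.filter (fun x => x 0 = a)).card := by
      apply card_eq_sum_card_fiberwise
      intro x hx
      exact mem_coe.2 (mem_tup.1 (hBSt (mem_coe.1 hx)) 0)
    rw [h1]; push_cast; rfl
  have hsumP : ∑ a ∈ X, ((BP.filter (fun x => x 0 = a)).card : ℝ) = (BP.card : ℝ) := by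
    have h1 : BP.card = ∑ a ∈ X, (BP.filter (fun x => x 0 = a)).card := by
      apply card_eq_sum_card_fiberwise
      intro x hx
      exact mem_coe.2 (mem_tup.1 (hBPt (mem_coe.1 hx)) 0)
    rw [h1]; push_cast; rfl
  have hSlow : (n : ℝ) ^ (2 * j + 3) < 2 * (S.card : ℝ) := by
    have h1 : ∀ a ∈ X, (n : ℝ) ^ (j + 1) * (((BS.filter (fun x => x 0 = a)).card : ℝ) +
        ((BP.filter (fun x => x 0 = a)).card : ℝ)) - (n : ℝ) ^ (j + 1) * (n : ℝ) ^ (j + 1) ≤
        ((BS.filter (fun x => x 0 = a)).card : ℝ) * ((BP.filter (fun x => x 0 = a)).card : ℝ) := by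
      intro a _
      have h2 : ((BS.filter (fun x => x 0 = a)).card : ℝ) ≤ (n : ℝ) ^ (j + 1) := by
        exact_mod_cast fib_le X (j + 1) BS hBSt a
      have h3 : ((BP.filter (fun x => x 0 = a)).card : ℝ) ≤ (n : ℝ) ^ (j + 1) := by
        exact_mod_cast fib_le X (j + 1) BP hBPt a
      nlinarith [mul_nonneg (sub_nonneg.2 h2) (sub_nonneg.2 h3)]
    have h2 := sum_le_sum h1
    rw [← hScard, sum_sub_distrib, ← mul_sum, sum_add_distrib, hsumS, hsumP, sum_const,
      nsmul_eq_mul, ← hn] at h2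
    have h3 : (n : ℝ) ^ (j + 1) * (3 / 2 * (n : ℝ) ^ (j + 2)) <
        (n : ℝ) ^ (j + 1) * ((BS.card : ℝ) + (BP.card : ℝ)) := by
      apply mul_lt_mul_of_pos_left _ (by positivity)
      linarith
    have h4 : (n : ℝ) ^ (j + 1) * (3 / 2 * (n : ℝ) ^ (j + 2)) = 3 / 2 * (n : ℝ) ^ (2 * j + 3) := by
      ring
    have h5 : (n : ℝ) * ((n : ℝ) ^ (j + 1) * (n : ℝ) ^ (j + 1)) = (n : ℝ) ^ (2 * j + 3) := by ring
    linarith
  -- pigeonhole over the last entries
  let tl : (Fin (j + 2) → R) → (Fin j → R) := fun x i => x i.succ.succ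
  obtain ⟨y, hy, hfib⟩ : ∃ y ∈ tup X j ×ˢ tup X' j,
      n ^ 3 ≤ 2 * (S.filter (fun p => (tl p.1, tl p.2) = y)).card := by
    by_contra hcc
    push Not at hcc
    have h1 : S.card = ∑ y ∈ tup X j ×ˢ tup X' j,
        (S.filter (fun p => (tl p.1, tl p.2) = y)).card := by
      apply card_eq_sum_card_fiberwise
      intro p hp
      have hp' := mem_product.1 (mem_filter.1 (mem_coe.1 hp)).1
      refine mem_coe.2 (mem_product.2 ⟨mem_tup.2 fun i => ?_, mem_tup.2 fun i => ?_⟩)
      · exact mem_tup.1 (hBSt hp'.1) _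
      · exact mem_tup.1 (mem_sdiff.1 hp'.2).1 _
    have h2 : 2 * S.card ≤ ∑ y ∈ tup X j ×ˢ tup X' j, n ^ 3 := by
      rw [h1, mul_sum]
      exact sum_le_sum fun y hy => (hcc y hy).le
    have h3 : ∑ y ∈ tup X j ×ˢ tup X' j, n ^ 3 ≤ n ^ (2 * j + 3) := by
      rw [sum_const, card_product, tup_card, tup_card, smul_eq_mul]
      have h4 : X'.card ^ j ≤ n ^ j := Nat.pow_le_pow_left (card_le_card hX'X) j
      calc X.card ^ j * X'.card ^ j * n ^ 3 ≤ n ^ j * n ^ j * n ^ 3 := by
            apply Nat.mul_le_mul_right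
            exact Nat.mul_le_mul_left _ h4
        _ = n ^ (2 * j + 3) := by ring
    have h4 : ((2 * S.card : ℕ) : ℝ) ≤ ((n ^ (2 * j + 3) : ℕ) : ℝ) := by
      exact_mod_cast h2.trans h3
    push_cast at h4
    linarith
  obtain ⟨y1, y2⟩ := y
  rw [mem_product] at hy
  set Fb := S.filter (fun p => (tl p.1, tl p.2) = (y1, y2)) with hFb
  let tr : (Fin (j + 2) → R) × (Fin (j + 2) → R) → ℝ × ℝ × ℝ :=
    fun p => (φ (p.1 0), φ (p.1 1), φ (p.2 1))
  have hinj : Set.InjOn tr (Fb : Set ((Fin (j + 2) → R) × (Fin (j + 2) → R))) := by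
    intro p hp q hq hpq
    have hp' := mem_filter.1 (mem_coe.1 hp)
    have hq' := mem_filter.1 (mem_coe.1 hq)
    have hp0 := (mem_filter.1 hp'.1).2
    have hq0 := (mem_filter.1 hq'.1).2
    have e1 := hφ (congrArg Prod.fst hpq)
    have e2 := hφ (congrArg (fun t : ℝ × ℝ × ℝ => t.2.1) hpq)
    have e3 := hφ (congrArg (fun t : ℝ × ℝ × ℝ => t.2.2) hpq)
    have e4 := hp'.2.trans hq'.2.symm
    have e5 : tl p.1 = tl q.1 := congrArg Prod.fst e4
    have e6 : tl p.2 = tl q.2 := congrArg Prod.snd e4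
    refine Prod.ext ?_ ?_
    · funext i
      refine Fin.cases e1 (fun i => ?_) i
      refine Fin.cases e2 (fun i => ?_) i
      exact congrFun e5 i
    · funext i
      refine Fin.cases (by rw [← hp0, ← hq0]; exact e1) (fun i => ?_) i
      refine Fin.cases e3 (fun i => ?_) i
      exact congrFun e6 i
  have hcardW : (Fb.image tr).card = Fb.card := card_image_of_injOn hinj
  have hφ0 : ∀ x : R, φ x = 0 → x = 0 := fun x hx => hφ (by rw [hx, map_zero])
  have hπ : φ (∏ i, y2 i) ≠ 0 := by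
    rw [map_prod]
    refine prod_ne_zero_iff.2 fun i _ hi => ?_
    have h1 := mem_tup.1 hy.2 i
    rw [hX'] at h1
    exact (mem_erase.1 h1).1 (hφ0 _ hi)
  have hA : (X.image φ).card = n := card_image_of_injective _ hφ
  have key := h (X.image φ) ((BS.image (fun x => ∑ i, x i)).image φ)
    ((BP.image (fun x => ∏ i, x i)).image φ) (φ (∑ i, y1 i)) (φ (∏ i, y2 i)) (Fb.image tr) hπ
    (by rw [hA]; exact h8) (by rw [hA, hcardW]; exact hfib) (by
      intro w hw
      obtain ⟨p, hp, rfl⟩ := mem_image.1 hw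
      have hp' := mem_filter.1 hp
      have hp0 := (mem_filter.1 hp'.1).2
      have hpp := mem_product.1 (mem_filter.1 hp'.1).1
      have hx1 := mem_tup.1 (hBSt hpp.1)
      have hx2 := mem_tup.1 (mem_sdiff.1 hpp.2).1
      have e5 : tl p.1 = y1 := congrArg Prod.fst hp'.2
      have e6 : tl p.2 = y2 := congrArg Prod.snd hp'.2
      refine ⟨mem_image_of_mem _ (hx1 0), mem_image_of_mem _ (hx1 1),
        mem_image_of_mem _ (hX'X (hx2 1)), ?_, ?_, ?_⟩
      · intro h0
        exact (mem_erase.1 (hx2 1)).1 (hφ0 _ h0)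
      · refine mem_image.2 ⟨∑ i, p.1 i, mem_image_of_mem _ hpp.1, ?_⟩
        rw [Fin.sum_univ_succ, Fin.sum_univ_succ, map_add, map_add, ← e5, ← add_assoc]
        rfl
      · refine mem_image.2 ⟨∏ i, p.2 i, mem_image_of_mem _ hpp.2, ?_⟩
        rw [Fin.prod_univ_succ, Fin.prod_univ_succ, map_mul, map_mul, ← e6, ← mul_assoc, ← hp0]
        rfl)
  rw [hA] at key
  set P := ((BS.image (fun x => ∑ i, x i)).image φ).card with hPc
  set Q := ((BP.image (fun x => ∏ i, x i)).image φ).card with hQc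
  have f1 : P * K ≤ n ^ (j + 2) := by
    refine le_trans (Nat.mul_le_mul_right _ ?_) d1
    rw [hPc]; exact card_image_le
  have f2 : Q * K ≤ n ^ (j + 2) := by
    refine le_trans (Nat.mul_le_mul_right _ ?_) d2
    rw [hQc]; exact card_image_le
  have g1 : n ^ 5 * K ^ 4 ≤ 2 ^ 17 * n ^ (4 * j + 8) := by
    calc n ^ 5 * K ^ 4 ≤ (2 ^ 17 * P ^ 2 * Q ^ 2) * K ^ 4 := Nat.mul_le_mul_right _ key
      _ = 2 ^ 17 * ((P * K) ^ 2 * (Q * K) ^ 2) := by ring
      _ ≤ 2 ^ 17 * ((n ^ (j + 2)) ^ 2 * (n ^ (j + 2)) ^ 2) := by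
          apply Nat.mul_le_mul_left
          exact Nat.mul_le_mul (Nat.pow_le_pow_left f1 2) (Nat.pow_le_pow_left f2 2)
      _ = 2 ^ 17 * n ^ (4 * j + 8) := by ring
  have g2 : 2 ^ 17 * n ^ (4 * j + 8) < n ^ 5 * K ^ 4 := by
    have h1 : 4 * (j + 2) - 5 = 4 * j + 3 := by omega
    rw [h1] at hK
    calc 2 ^ 17 * n ^ (4 * j + 8) = n ^ 5 * (2 ^ 17 * n ^ (4 * j + 3)) := by ring
      _ < n ^ 5 * K ^ 4 := by
          apply Nat.mul_lt_mul_of_pos_left hK
          have : 0 < n := by omega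
          positivity
  omega

end Pool.Agent.W52.RS
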