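import Pool.Agent.W250.RS.Stm

/-!
RS-BD and RS-SB: bounded differences; from random tuples to random subsets.
-/

set_option autoImplicit false

namespace Pool.Agent.W52.RS

open Finset
open Pool.Agent.W250.RS

lemma hit_card {k N : ℕ} (l : Fin k) (i : Fin N) :
    ((univ : Finset (Fin k → Fin N)).filter (fun ι => ι l = i)).card ≤ N ^ (k - 1) := by
  classical
  have h : ((univ : Finset (Fin k → Fin N)).filter (fun ι => ι l = i)) ⊆
      Fintype.piFinset (fun j : Fin k => if j = l then {i} else univ) := by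
    intro ι hι
    rw [mem_filter] at hι
    rw [Fintype.mem_piFinset]
    intro j
    split_ifs with hj
    · rw [hj, hι.2]; exact mem_singleton_self _
    · exact mem_univ _
  refine (card_le_card h).trans ?_
  rw [Fintype.card_piFinset, ← mul_prod_erase univ _ (mem_univ l)]
  rw [if_pos rfl, card_singleton, one_mul]
  have h2 : ∀ j ∈ univ.erase l, (if j = l then ({i} : Finset (Fin N)) else univ).card = N := by
    intro j hj
    rw [if_neg (ne_of_mem_erase hj), card_univ, Fintype.card_fin]
  rw [prod_congr rfl h2, prod_const, card_erase_of_mem (mem_univ l), card_univ, Fintype.card_fin]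

lemma hits_card {k N : ℕ} (i : Fin N) :
    ((univ : Finset (Fin k → Fin N)).filter (fun ι => ∃ l, ι l = i)).card ≤ k * N ^ (k - 1) := by
  classical
  have h : ((univ : Finset (Fin k → Fin N)).filter (fun ι => ∃ l, ι l = i)) ⊆
      (univ : Finset (Fin k)).biUnion
        (fun l => (univ : Finset (Fin k → Fin N)).filter (fun ι => ι l = i)) := by
    intro ι hι
    rw [mem_filter] at hι
    obtain ⟨l, hl⟩ := hι.2
    rw [mem_biUnion]
    exact ⟨l, mem_univ _, by rw [mem_filter]; exact ⟨mem_univ _, hl⟩⟩
  refine (card_le_card h).trans ?_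
  refine (card_biUnion_le_card_mul _ _ _ (fun l _ => hit_card l i)).trans ?_
  rw [card_univ, Fintype.card_fin]

/-- One direction of the bounded difference estimate. -/
lemma bd_one {α β : Type} [DecidableEq β] {k N : ℕ} (g : (Fin k → α) → β) (f f' : Fin N → α)
    (i : Fin N) (h : ∀ j, j ≠ i → f j = f' j) :
    ((univ : Finset (Fin k → Fin N)).image (fun ι => g (f ∘ ι))).card ≤
      ((univ : Finset (Fin k → Fin N)).image (fun ι => g (f' ∘ ι))).card + k * N ^ (k - 1) := by
  classical
  have hs : ((univ : Finset (Fin k → Fin N)).image (fun ι => g (f ∘ ι))) ⊆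
      ((univ : Finset (Fin k → Fin N)).image (fun ι => g (f' ∘ ι))) ∪
      (((univ : Finset (Fin k → Fin N)).filter (fun ι => ∃ l, ι l = i)).image
        (fun ι => g (f ∘ ι))) := by
    intro b hb
    rw [mem_image] at hb
    obtain ⟨ι, -, rfl⟩ := hb
    rw [mem_union]
    by_cases hι : ∃ l, ι l = i
    · right
      exact mem_image_of_mem _ (by rw [mem_filter]; exact ⟨mem_univ _, hι⟩)
    · left
      rw [mem_image]
      refine ⟨ι, mem_univ _, ?_⟩
      have : f' ∘ ι = f ∘ ι := by
        funext l
        exact (h _ (fun h' => hι ⟨l, h'⟩)).symm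
      rw [this]
  refine (card_le_card hs).trans ((card_union_le _ _).trans ?_)
  exact Nat.add_le_add_left (card_image_le.trans (hits_card i)) _

theorem t_BD : S_BD := by
  intro α β _ _ k N g f i a hk
  have h1 := bd_one (k := k) g (Function.update f i a) f i
    (fun j hj => Function.update_of_ne hj _ _)
  have h2 := bd_one (k := k) g f (Function.update f i a) i
    (fun j hj => (Function.update_of_ne hj _ _).symm)
  have h1' : (((univ : Finset (Fin k → Fin N)).image
      (fun ι => g (Function.update f i a ∘ ι))).card : ℝ) ≤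
      (((univ : Finset (Fin k → Fin N)).image (fun ι => g (f ∘ ι))).card : ℝ) +
        (k : ℝ) * (N : ℝ) ^ (k - 1) := by exact_mod_cast h1
  have h2' : (((univ : Finset (Fin k → Fin N)).image (fun ι => g (f ∘ ι))).card : ℝ) ≤
      (((univ : Finset (Fin k → Fin N)).image
      (fun ι => g (Function.update f i a ∘ ι))).card : ℝ) +
        (k : ℝ) * (N : ℝ) ^ (k - 1) := by exact_mod_cast h2
  rw [abs_le]
  constructor <;> linarith

/-! ### SB -/

lemma one_sub_exp {x : ℝ} (h0 : 0 ≤ x) (h1 : x ≤ 1 / 2) : 1 ≤ (1 - x) * Real.exp (2 * x) := by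
  have hpos : 0 < 1 - x := by linarith
  have h2 : 1 / (1 - x) ≤ Real.exp (2 * x) := by
    have h3 : 1 / (1 - x) = x / (1 - x) + 1 := by field_simp; ring
    rw [h3]
    refine (Real.add_one_le_exp _).trans (Real.exp_le_exp.2 ?_)
    rw [div_le_iff₀ hpos]
    nlinarith
  rw [div_le_iff₀ hpos] at h2
  linarith

lemma pow_le_desc (n : ℕ) : ∀ N : ℕ, 2 * N ≤ n →
    (n : ℝ) ^ N ≤ Real.exp ((N : ℝ) ^ 2 / n) * (n.descFactorial N : ℝ) := by
  intro N
  induction N with
  | zero => intro _; simp
  | succ N ih =>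
    intro h
    have hn : (0 : ℝ) < n := by
      have : 0 < n := by omega
      exact_mod_cast this
    have hNn : ((N : ℝ)) / n ≤ 1 / 2 := by
      rw [div_le_iff₀ hn]
      have : ((2 * N : ℕ) : ℝ) ≤ (n : ℝ) := by exact_mod_cast (by omega : 2 * N ≤ n)
      push_cast at this
      linarith
    have h1 := one_sub_exp (x := (N : ℝ) / n) (by positivity) hNn
    have h2 : (n : ℝ) ≤ ((n - N : ℕ) : ℝ) * Real.exp (2 * ((N : ℝ) / n)) := by
      have h3 : (n : ℝ) * 1 ≤ n * ((1 - (N : ℝ) / n) * Real.exp (2 * ((N : ℝ) / n))) :=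
        mul_le_mul_of_nonneg_left h1 hn.le
      have h4 : (n : ℝ) * ((1 - (N : ℝ) / n) * Real.exp (2 * ((N : ℝ) / n))) =
          ((n : ℝ) - N) * Real.exp (2 * ((N : ℝ) / n)) := by
        field_simp
      rw [h4, mul_one] at h3
      rw [Nat.cast_sub (by omega)]
      exact h3
    have ih' := ih (by omega)
    rw [Nat.descFactorial_succ]
    push_cast [pow_succ]
    have h5 : Real.exp ((N : ℝ) ^ 2 / n) * Real.exp (2 * ((N : ℝ) / n)) ≤
        Real.exp (((N : ℝ) + 1) * ((N : ℝ) + 1) / n) := by
      rw [← Real.exp_add]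
      apply Real.exp_le_exp.2
      rw [le_div_iff₀ hn]
      have : ((N : ℝ) ^ 2 / n + 2 * ((N : ℝ) / n)) * n = (N : ℝ) ^ 2 + 2 * N := by
        field_simp
      rw [this]
      nlinarith
    calc (n : ℝ) ^ N * n ≤ (Real.exp ((N : ℝ) ^ 2 / n) * (n.descFactorial N : ℝ)) *
          (((n - N : ℕ) : ℝ) * Real.exp (2 * ((N : ℝ) / n))) := by
          apply mul_le_mul ih' h2 hn.le
          positivity
      _ = (Real.exp ((N : ℝ) ^ 2 / n) * Real.exp (2 * ((N : ℝ) / n))) *
          (((n - N : ℕ) : ℝ) * (n.descFactorial N : ℝ)) := by ring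
      _ ≤ Real.exp (((N : ℝ) + 1) * ((N : ℝ) + 1) / n) *
          (((n - N : ℕ) : ℝ) * (n.descFactorial N : ℝ)) := by
          apply mul_le_mul_of_nonneg_right h5
          positivity
      _ = _ := by ring_nf

lemma fact_le {α : Type} [DecidableEq α] (X : Finset α) (N : ℕ) (A : Finset α)
    (hA : A ∈ X.powersetCard N) :
    N.factorial ≤ ((tup X N).filter (fun f => univ.image f = A)).card := by
  classical
  rw [mem_powersetCard] at hA
  obtain ⟨hAX, hAN⟩ := hA
  let e := A.equivFinOfCardEq hAN
  let F : Equiv.Perm (Fin N) → (Fin N → α) := fun σ j => (e.symm (σ j)).1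
  have hF : Function.Injective F := by
    intro σ τ h
    ext j
    have h1 : (e.symm (σ j)).1 = (e.symm (τ j)).1 := congrFun h j
    have h2 := e.symm.injective (Subtype.ext h1)
    rw [h2]
  have h1 : (univ.image F).card = N.factorial := by
    rw [card_image_of_injective _ hF, card_univ, Fintype.card_perm, Fintype.card_fin]
  rw [← h1]
  apply card_le_card
  intro f hf
  rw [mem_image] at hf
  obtain ⟨σ, -, rfl⟩ := hf
  rw [mem_filter]
  constructor
  · unfold tup
    rw [Fintype.mem_piFinset]
    intro j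
    exact hAX (e.symm (σ j)).2
  · ext a
    rw [mem_image]
    constructor
    · rintro ⟨j, -, rfl⟩
      exact (e.symm (σ j)).2
    · intro ha
      refine ⟨σ.symm (e ⟨a, ha⟩), mem_univ _, ?_⟩
      show (e.symm (σ (σ.symm (e ⟨a, ha⟩)))).1 = a
      rw [Equiv.apply_symm_apply, Equiv.symm_apply_apply]

theorem t_SB : S_SB := by
  classical
  intro α _ X N B _ δ hN hδ hbad
  set T := (X.powersetCard N).filter B with hT
  set S := ((tup X N).filter (fun f => B (univ.image f))).filter
    (fun f => univ.image f ∈ T) with hS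
  have h1 : N.factorial * T.card ≤ S.card := by
    apply mul_card_image_le_card_of_maps_to (f := fun f : Fin N → α => univ.image f)
    · intro f hf
      exact (mem_filter.1 hf).2
    · intro A hA
      refine (fact_le X N A (mem_filter.1 hA).1).trans (card_le_card ?_)
      intro f hf
      rw [mem_filter] at hf
      rw [mem_filter, hS, mem_filter, mem_filter]
      have hB : B A := (mem_filter.1 hA).2
      refine ⟨⟨⟨hf.1, ?_⟩, ?_⟩, hf.2⟩
      · rw [hf.2]; exact hB
      · rw [hf.2]; exact hA
  have h2 : S.card ≤ ((tup X N).filter (fun f => B (univ.image f))).card :=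
    card_le_card (filter_subset _ _)
  have h3 : ((N.factorial * T.card : ℕ) : ℝ) ≤ δ * (X.card : ℝ) ^ N := by
    refine le_trans ?_ hbad
    exact_mod_cast h1.trans h2
  have h4 := pow_le_desc X.card N hN
  rw [Nat.descFactorial_eq_factorial_mul_choose] at h4
  have hf : (0 : ℝ) < N.factorial := by exact_mod_cast N.factorial_pos
  have h5 : (N.factorial : ℝ) * (T.card : ℝ) ≤
      (N.factorial : ℝ) * (δ * Real.exp ((N : ℝ) ^ 2 / X.card) * (X.card.choose N : ℝ)) := by
    calc (N.factorial : ℝ) * (T.card : ℝ) = ((N.factorial * T.card : ℕ) : ℝ) := by push_cast; ring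
      _ ≤ δ * (X.card : ℝ) ^ N := h3
      _ ≤ δ * (Real.exp ((N : ℝ) ^ 2 / X.card) *
          ((N.factorial * X.card.choose N : ℕ) : ℝ)) := mul_le_mul_of_nonneg_left h4 hδ
      _ = _ := by push_cast; ring
  exact le_of_mul_le_mul_left h5 hf

end Pool.Agent.W52.RS
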